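import Pool.Agent.N483.KM.StmV
import Pool.Agent.R751.MB.Mix
import Pool.Agent.R751.MB.Ten

/-!
# Project KM, V1: the Gibbs weights of block sums satisfy the Poincare inequality
-/

set_option autoImplicit false

namespace Pool.Agent.N234.KM

open MeasureTheory Set Filter Topology
open scoped ENNReal InnerProductSpace
open Pool.Agent.R754.KG (E un sl Rv)
open Pool.Agent.Y506.PV (LCn)
open Pool.Agent.Y506.RG (EW VW Adm)
open Pool.Agent.R751.MB (AP)
open Pool.Agent.N483.KM

theorem lcn_of_convex {n : ℕ} {Φ : E n → ℝ} (hc : ConvexOn ℝ univ Φ) :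
    LCn fun x => Real.exp (-Φ x) := by
  intro x y t ht0 ht1
  have h1 := hc.2 (mem_univ x) (mem_univ y) (by linarith : 0 ≤ 1 - t) ht0.le (by ring)
  rw [← Real.exp_mul, ← Real.exp_mul, ← Real.exp_add]
  refine Real.exp_le_exp.2 ?_
  simp only [smul_eq_mul] at h1
  linarith

theorem adm_of_low {n : ℕ} {Φ : E n → ℝ} (hcont : Continuous Φ) (A : ℝ)
    (hlin : ∀ x, ‖x‖ - A ≤ Φ x) : Adm fun x => Real.exp (-Φ x) := by
  have hint : Integrable fun x : E n => (1 + ‖x‖ ^ 2) * Real.exp (-Φ x) := by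
    obtain ⟨d, hd⟩ : ∃ d : ℕ, d = Module.finrank ℝ (E n) + 1 := ⟨_, rfl⟩
    have hi : Integrable fun x : E n => (1 + ‖x‖) ^ (-(d : ℝ)) :=
      integrable_one_add_norm (by rw [hd]; push_cast; linarith)
    obtain ⟨M, hM⟩ : ∃ M : ℝ, ∀ t : ℝ, 0 ≤ t → (1 + t ^ 2) * Real.exp (-(t - A)) ≤
        M * (1 + t) ^ (-(d : ℝ)) := by
      refine ⟨Real.exp (1 + A) * (d + 2).factorial, fun t ht => ?_⟩
      have h1 : (1 + t) ^ (d + 2) / (d + 2).factorial ≤ Real.exp (1 + t) :=
        Real.pow_div_factorial_le_exp _ (by positivity) _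
      have h2 : (1 + t) ^ (d + 2) * Real.exp (-(1 + t)) ≤ (d + 2).factorial := by
        rw [div_le_iff₀ (by positivity)] at h1
        rw [Real.exp_neg, ← div_eq_mul_inv, div_le_iff₀ (Real.exp_pos _)]
        linarith
      have h3 : Real.exp (-(t - A)) = Real.exp (1 + A) * Real.exp (-(1 + t)) := by
        rw [← Real.exp_add]
        congr 1
        ring
      have h4 : (1 + t) ^ (-(d : ℝ)) = ((1 + t) ^ d)⁻¹ := by
        rw [Real.rpow_neg (by positivity), Real.rpow_natCast]
      have h5 : 1 + t ^ 2 ≤ (1 + t) ^ 2 := by nlinarith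
      rw [h3, h4]
      have h6 : (1 + t ^ 2) * Real.exp (-(1 + t)) ≤
          (d + 2).factorial * ((1 + t) ^ d)⁻¹ := by
        rw [← div_eq_mul_inv, le_div_iff₀ (by positivity)]
        calc (1 + t ^ 2) * Real.exp (-(1 + t)) * (1 + t) ^ d
            ≤ (1 + t) ^ 2 * Real.exp (-(1 + t)) * (1 + t) ^ d := by gcongr
          _ = (1 + t) ^ (d + 2) * Real.exp (-(1 + t)) := by ring
          _ ≤ _ := h2
      calc (1 + t ^ 2) * (Real.exp (1 + A) * Real.exp (-(1 + t)))
          = Real.exp (1 + A) * ((1 + t ^ 2) * Real.exp (-(1 + t))) := by ring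
        _ ≤ Real.exp (1 + A) * ((d + 2).factorial * ((1 + t) ^ d)⁻¹) :=
          mul_le_mul_of_nonneg_left h6 (Real.exp_pos _).le
        _ = _ := by ring
    refine Integrable.mono' (hi.const_mul M) ?_ (Eventually.of_forall fun x => ?_)
    · exact (by fun_prop : Continuous fun x : E n =>
        (1 + ‖x‖ ^ 2) * Real.exp (-Φ x)).aestronglyMeasurable
    · rw [Real.norm_eq_abs, abs_of_nonneg (by positivity)]
      refine le_trans ?_ (hM ‖x‖ (norm_nonneg x))
      refine mul_le_mul_of_nonneg_left (Real.exp_le_exp.2 ?_) (by positivity)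
      have := hlin x
      linarith
  have hint1 : Integrable fun x : E n => Real.exp (-Φ x) := by
    refine Integrable.mono' hint ?_ (Eventually.of_forall fun x => ?_)
    · exact (by fun_prop : Continuous fun x : E n => Real.exp (-Φ x)).aestronglyMeasurable
    · rw [Real.norm_eq_abs, abs_of_pos (Real.exp_pos _)]
      nlinarith [sq_nonneg ‖x‖, Real.exp_pos (-Φ x)]
  refine ⟨fun x => (Real.exp_pos _).le, hint, ?_, ?_⟩
  · exact integral_exp_pos hint1
  · exact (Real.continuous_exp.comp hcont.neg).measurable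

/-- lower bound for the potentials -/
theorem low_bound (l C R s : ℝ) (hl : 0 < l) (hC : 0 ≤ C) (hs : 0 ≤ s) :
    s - ((C + 1) ^ 2 / (4 * l) + (C + 1) * |R|) ≤ l * max (s - R) 0 ^ 2 - C * s := by
  set v := max (s - R) 0 with hv
  have h1 : s ≤ v + |R| := by
    have h2 : s - R ≤ v := le_max_left _ _
    have h3 : R ≤ |R| := le_abs_self R
    linarith
  have h2 : (C + 1) * s ≤ (C + 1) * (v + |R|) := mul_le_mul_of_nonneg_left h1 (by linarith)
  have h3 : (C + 1) * v ≤ l * v ^ 2 + (C + 1) ^ 2 / (4 * l) := by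
    have h4 : (C + 1) ^ 2 / (4 * l) * (4 * l) = (C + 1) ^ 2 := by field_simp
    have h5 : 0 ≤ (2 * l * v - (C + 1)) ^ 2 := sq_nonneg _
    have h6 : 0 ≤ (l * v ^ 2 + (C + 1) ^ 2 / (4 * l) - (C + 1) * v) * (4 * l) := by
      have : (l * v ^ 2 + (C + 1) ^ 2 / (4 * l) - (C + 1) * v) * (4 * l) =
          (2 * l * v - (C + 1)) ^ 2 := by
        linear_combination h4
      rw [this]
      exact h5
    have h7 := nonneg_of_mul_nonneg_left h6 (by positivity)
    linarith
  linarith

/-- V1: the Gibbs weights satisfy the Poincaré inequality in isotropic position -/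
theorem t_VGW : Pool.Agent.N483.KM.S_VGW := by
  classical
  intro r q B n N A k G ψ e0 V hA hr hGd hconv hnn hlow hinv hinv2 l a hl
  obtain ⟨R, hR⟩ := hlow
  let φ : ∀ i, E (k i) →ₗ[ℝ] E q := fun i =>
    (LinearMap.snd ℝ (E n) (E q)).comp (ψ.symm.toLinearMap.comp (e0.toLinearMap.comp
      (LinearMap.single ℝ (fun i => E (k i)) i)))
  have hφ : ∀ i y, φ i y = (ψ.symm (e0 (Pi.single i y))).2 := fun i y => rfl
  let Φ : ∀ i, E (k i) → ℝ := fun i y => ∑ j, l j * V j i y + ⟪a, φ i y⟫_ℝ
  have hVc : ∀ j i, Continuous (V j i) := fun j i =>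
    continuousOn_univ.1 ((hconv j i).continuousOn isOpen_univ)
  have hφc : ∀ i, Continuous (φ i) := fun i => (φ i).continuous_of_finiteDimensional
  have hΦc : ∀ i, Continuous (Φ i) := by
    intro i
    have h1 := hφc i
    refine Continuous.add (continuous_finsetSum _ fun j _ => (hVc j i).const_mul (l j)) ?_
    exact continuous_const.inner h1
  have hΦv : ∀ i, ConvexOn ℝ univ (Φ i) := by
    intro i
    refine ⟨convex_univ, fun x _ y _ s t hs ht hst => ?_⟩
    simp only [Φ, map_add, map_smul, inner_add_right, inner_smul_right, smul_eq_mul]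
    have h1 : ∑ j, l j * V j i (s • x + t • y) ≤
        s * ∑ j, l j * V j i x + t * ∑ j, l j * V j i y := by
      rw [Finset.mul_sum, Finset.mul_sum, ← Finset.sum_add_distrib]
      refine Finset.sum_le_sum fun j _ => ?_
      have h2 := (hconv j i).2 (mem_univ x) (mem_univ y) hs ht hst
      simp only [smul_eq_mul] at h2
      have h3 := mul_le_mul_of_nonneg_left h2 (hl j).le
      linarith
    linarith
  have hadm : ∀ i, Adm fun x => Real.exp (-Φ i x) := by
    intro i
    set L : E (k i) →L[ℝ] E q := LinearMap.toContinuousLinearMap (φ i) with hL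
    let j0 : Fin r := ⟨0, hr⟩
    refine adm_of_low (hΦc i) ((‖a‖ * ‖L‖ + 1) ^ 2 / (4 * l j0) + (‖a‖ * ‖L‖ + 1) * |R|)
      fun x => ?_
    refine (low_bound (l j0) (‖a‖ * ‖L‖) R ‖x‖ (hl j0) (by positivity) (norm_nonneg x)).trans ?_
    have h1 : l j0 * max (‖x‖ - R) 0 ^ 2 ≤ ∑ j, l j * V j i x := by
      refine (mul_le_mul_of_nonneg_left (hR j0 i x) (hl j0).le).trans ?_
      exact Finset.single_le_sum (f := fun j => l j * V j i x)
        (fun j _ => mul_nonneg (hl j).le (hnn j i x)) (Finset.mem_univ j0)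
    have h2 : -(‖a‖ * ‖L‖ * ‖x‖) ≤ ⟪a, φ i x⟫_ℝ := by
      have h3 := abs_real_inner_le_norm a (φ i x)
      have h4 : ‖φ i x‖ ≤ ‖L‖ * ‖x‖ := L.le_opNorm x
      have h5 : ‖a‖ * ‖φ i x‖ ≤ ‖a‖ * (‖L‖ * ‖x‖) := mul_le_mul_of_nonneg_left h4 (norm_nonneg a)
      have h6 := (abs_le.1 h3).1
      linarith
    simp only [Φ]
    linarith
  have hAP : ∀ i, AP (κ := Fin (k i)) A fun x => Real.exp (-Φ i x) := by
    intro i
    refine hGd i _ (hadm i) (lcn_of_convex (hΦv i)) (Real.continuous_exp.comp (hΦc i).neg)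
      (fun x => Real.exp_pos _) ?_
    intro g hg x
    have h1 : Φ i (g x) = Φ i x := by
      simp only [Φ]
      congr 1
      · refine Finset.sum_congr rfl fun j _ => ?_
        rw [hinv i g hg j x]
      · have h2 := hinv2 i g hg x
        rw [← hφ i (g x - x), map_sub, sub_eq_zero] at h2
        rw [h2]
    simp only [h1]
  have h := Pool.Agent.R751.MB.ap_pi Pool.Agent.R751.MB.ten hA.le B k N e0
    (fun i x => Real.exp (-Φ i x)) hAP
  have hgw : (gw ψ (fun j z => ∑ i, V j i (e0.symm z i)) l a) =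
      fun z => ∏ i, Real.exp (-Φ i (e0.symm z i)) := by
    funext z
    rw [← Real.exp_sum, Finset.sum_neg_distrib]
    unfold gw
    congr 2
    simp only [Φ]
    rw [Finset.sum_add_distrib]
    congr 1
    · rw [Finset.sum_comm]
      refine Finset.sum_congr rfl fun j _ => ?_
      rw [Finset.mul_sum]
    · rw [← inner_sum]
      congr 1
      have h1 : ∑ i, φ i (e0.symm z i) =
          (LinearMap.snd ℝ (E n) (E q)) (ψ.symm (e0 (∑ i, Pi.single i (e0.symm z i)))) := by
        rw [map_sum, map_sum, map_sum]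
        rfl
      rw [h1, Finset.univ_sum_single, LinearEquiv.apply_symm_apply]
      rfl
  rw [hgw]
  exact h

end Pool.Agent.N234.KM
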